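import Pool.Agent.W627.LT.Stm

/-!
# No collision of powers (part C of project LT)
-/

set_option autoImplicit false

namespace Pool.Agent.W171.LT

open Finset NumberField Pool.Agent.W627.LT

theorem ltc_dvd {K : Type} [Field K] [NumberField K] {p : ℕ} (hp : p.Prime) {Q I : Ideal (𝓞 K)}
    (hQ : Ideal.absNorm Q = p) {z : ℤ} (h : Q ∣ I) (hI : I = Ideal.span {(z : 𝓞 K)}) :
    (Ideal.span {(p : 𝓞 K)} : Ideal (𝓞 K)) ∣ I := by
  have h1 : Ideal.absNorm Q ∣ Ideal.absNorm I := map_dvd Ideal.absNorm h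
  have h2 : Ideal.absNorm (Ideal.span {(z : 𝓞 K)}) = (z ^ Module.finrank ℤ (𝓞 K)).natAbs := by
    rw [Ideal.absNorm_span_singleton]
    have := Algebra.norm_algebraMap (S := 𝓞 K) (R := ℤ) z
    rw [← this]
    simp
  rw [hQ, hI, h2, Int.natAbs_pow] at h1
  have h3 : p ∣ z.natAbs := hp.dvd_of_dvd_pow h1
  have h4 : (p : ℤ) ∣ z := Int.natCast_dvd.mpr h3
  obtain ⟨w, rfl⟩ := h4
  rw [hI, Ideal.dvd_iff_le, Ideal.span_singleton_le_span_singleton]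
  refine ⟨(w : 𝓞 K), ?_⟩
  push_cast
  ring

theorem ltc_fac {K : Type} [Field K] [NumberField K] (P P' : ℕ → Ideal (𝓞 K))
    (s t : Finset ℕ) (hst : ∀ p ∈ s ∪ t, p.Prime ∧ P p ≠ P' p ∧ (P p).IsPrime ∧ (P' p).IsPrime ∧
      Ideal.absNorm (P p) = p ∧ Ideal.absNorm (P' p) = p ∧
      P p * P' p = Ideal.span {(p : 𝓞 K)}) (l : ℕ) {p : ℕ} (hp : p.Prime)
    {Q : Ideal (𝓞 K)} (hQ : Q.IsPrime) (hn : Ideal.absNorm Q = p)
    (h : Q ∣ (∏ p ∈ t, P p) ^ l * (∏ p ∈ s, P' p) ^ l) :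
    (p ∈ t ∧ Q = P p) ∨ (p ∈ s ∧ Q = P' p) := by
  have hQ0 : Q ≠ ⊥ := by
    rintro rfl
    rw [Ideal.absNorm_bot] at hn
    exact hp.ne_zero hn.symm
  have hQp : Prime Q := (Ideal.prime_iff_isPrime hQ0).mpr hQ
  have key : ∀ R : Ideal (𝓞 K), ∀ q : ℕ, q.Prime → R.IsPrime → Ideal.absNorm R = q → Q ∣ R →
      Q = R ∧ q = p := by
    intro R q hq hR hRn hd
    have hR0 : R ≠ ⊥ := by
      rintro rfl
      rw [Ideal.absNorm_bot] at hRn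
      exact hq.ne_zero hRn.symm
    have hmax : R.IsMaximal := hR.isMaximal hR0
    have hle : R ≤ Q := Ideal.le_of_dvd hd
    have he : R = Q := hmax.eq_of_le hQ.ne_top hle
    exact ⟨he.symm, by rw [← hRn, he, hn]⟩
  rcases hQp.dvd_or_dvd h with h1 | h1
  · obtain ⟨q, hq, hd⟩ := (hQp.dvd_finset_prod_iff _).mp (hQp.dvd_of_dvd_pow h1)
    obtain ⟨a1, a2, a3, a4, a5, a6, a7⟩ := hst q (Finset.mem_union_right _ hq)
    obtain ⟨e1, e2⟩ := key (P q) q a1 a3 a5 hd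
    subst e2
    exact Or.inl ⟨hq, e1⟩
  · obtain ⟨q, hq, hd⟩ := (hQp.dvd_finset_prod_iff _).mp (hQp.dvd_of_dvd_pow h1)
    obtain ⟨a1, a2, a3, a4, a5, a6, a7⟩ := hst q (Finset.mem_union_left _ hq)
    obtain ⟨e1, e2⟩ := key (P' q) q a1 a4 a6 hd
    subst e2
    exact Or.inr ⟨hq, e1⟩

theorem ltc : S_C := by
  intro K _ _ P P' s t hst l hl z hz
  ext p
  constructor
  · intro hps
    obtain ⟨a1, a2, a3, a4, a5, a6, a7⟩ := hst p (Finset.mem_union_left _ hps)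
    have d1 : P' p ∣ (∏ p ∈ t, P p) ^ l * (∏ p ∈ s, P' p) ^ l :=
      Dvd.dvd.mul_left (dvd_pow (Finset.dvd_prod_of_mem _ hps) (by omega)) _
    have d2 := ltc_dvd a1 a6 d1 hz
    have d3 : P p ∣ (∏ p ∈ t, P p) ^ l * (∏ p ∈ s, P' p) ^ l :=
      (Dvd.intro _ a7).trans d2
    rcases ltc_fac P P' s t hst l a1 a3 a5 d3 with ⟨h, _⟩ | ⟨_, h⟩
    · exact h
    · exact absurd h a2
  · intro hpt
    obtain ⟨a1, a2, a3, a4, a5, a6, a7⟩ := hst p (Finset.mem_union_right _ hpt)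
    have d1 : P p ∣ (∏ p ∈ t, P p) ^ l * (∏ p ∈ s, P' p) ^ l :=
      Dvd.dvd.mul_right (dvd_pow (Finset.dvd_prod_of_mem _ hpt) (by omega)) _
    have d2 := ltc_dvd a1 a5 d1 hz
    have d3 : P' p ∣ (∏ p ∈ t, P p) ^ l * (∏ p ∈ s, P' p) ^ l :=
      (Dvd.intro_left _ a7).trans d2
    rcases ltc_fac P P' s t hst l a1 a4 a6 d3 with ⟨_, h⟩ | ⟨h, _⟩
    · exact absurd h.symm a2
    · exact h

end Pool.Agent.W171.LT
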